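import Pool.Agent.Q25.PLP.Stm

/-!
# Project PLP (helper25), job PL (helper182): the lines inside a plane form a linear space
-/

set_option autoImplicit false

open Finset Pool.Agent.Helper123.PLP Pool.Agent.Q25.PLP

namespace Pool.Agent.Q182.PLPPL

theorem t_PL : S_PL := by
  intro P _ _ G h hh
  obtain ⟨l0, hl0, hl0h, x0, hx0, hx0l⟩ := G.nondeg h hh
  refine ⟨?_, ?_, ?_, ?_, ?_, ?_⟩
  · intro l hl
    exact (mem_inn.1 hl).2
  · intro l hl
    exact G.two_le l (mem_inn.1 hl).1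
  · intro x hx y hy hxy
    obtain ⟨l, hl, hxl, hyl⟩ := G.ex_line x y hxy
    exact ⟨l, mem_inn.2 ⟨hl, G.closed h hh l hl x y hxy hxl hyl hx hy⟩, hxl, hyl⟩
  · intro l hl l' hl' x y hxy h1 h2 h3 h4
    exact G.uniq_line l (mem_inn.1 hl).1 l' (mem_inn.1 hl').1 x y hxy h1 h2 h3 h4
  · intro l hl
    by_contra hcon
    push Not at hcon
    have hl1 := (mem_inn.1 hl).1
    have h2 := G.two_le l0 hl0
    obtain ⟨a, ha, b, hb, hab⟩ := Finset.one_lt_card.1 (by omega : 1 < l0.card)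
    have h3 : l0 = l :=
      G.uniq_line l0 hl0 l hl1 a b hab ha hb (hcon a (hl0h ha)) (hcon b (hl0h hb))
    apply hx0l
    rw [h3]
    exact hcon x0 hx0
  · exact ⟨l0, mem_inn.2 ⟨hl0, hl0h⟩⟩

end Pool.Agent.Q182.PLPPL
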